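import Mathlib
import Pool.Agent.H350R3.GR.Glue
import Pool.Agent.H350R3.GR.Beta
import Pool.Agent.W609.UniX

set_option autoImplicit false

/-!
# Nef classes exponentially close to the boundary of the positive cone
-/

namespace Pool.Agent.W609.Cone

open Pool.Agent.H932R3 Pool.Agent.H350R3 Pool.Agent.H350R3.GR

/-- The precision. -/
noncomputable def eps (t : ℝ) : ℝ := Real.exp (-(t ^ (1 / 10 : ℝ)))

theorem eps_pos (t : ℝ) : 0 < eps t := Real.exp_pos _

theorem beta_exp {t : ℝ} (ht : 2 ^ 1000 ≤ t) : ∃ (δ : ℕ) (σ : ℝ), 4 ≤ δ ∧ Reach δ σ ∧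
    Real.sqrt σ * max 1 (t / σ) ≤ (1 + eps t) * Real.sqrt t := by
  have ht1 : (1 : ℝ) ≤ t := le_trans (one_le_pow₀ (by norm_num)) ht
  have h16 : ((4 : ℕ) : ℝ) ^ 2 = 16 := by norm_num
  have ht64 : (2 : ℝ) ^ 64 ≤ t := le_trans (pow_le_pow_right₀ (by norm_num) (by norm_num)) ht
  obtain ⟨σ, hσ, h1, h2⟩ := Pool.Agent.W610.exists_up_exp (s0 := ((4 : ℕ) : ℝ) ^ 2) (u := t)
    (by norm_num) ht (by
      rw [h16]
      have h3 : (16 : ℝ) ^ 4 ≤ t := le_trans (by norm_num) ht64
      have h4 : t ≤ t ^ 3 := by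
        calc t = t ^ 1 := (pow_one t).symm
          _ ≤ t ^ 3 := pow_le_pow_right₀ ht1 (by norm_num)
      exact h3.trans h4)
  clear ht
  have hX : (0 : ℝ) ≤ t ^ (1 / 10 : ℝ) := Real.rpow_nonneg (by linarith) _
  have he : eps t = Real.exp (-(t ^ (1 / 10 : ℝ))) := rfl
  rw [← he] at h2
  have he0 : 0 < eps t := eps_pos t
  have he1 : eps t ≤ 1 := by
    rw [he, Real.exp_le_one_iff]
    linarith
  obtain ⟨ε, hε⟩ : ∃ ε, ε = eps t := ⟨_, rfl⟩
  rw [← hε] at h2 he0 he1 ⊢
  clear hε he hX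
  have hσ1 : 1 ≤ σ := by
    have : (2 : ℝ) ^ 64 = 18446744073709551616 := by norm_num
    linarith
  have hσ0 : 0 < σ := by linarith
  refine ⟨4, σ, le_rfl, Pool.Agent.W609.U.reach_of_up hσ, ?_⟩
  have hm : max 1 (t / σ) = t / σ := by
    refine max_eq_right ?_
    rw [le_div_iff₀ hσ0]
    linarith
  rw [hm]
  have hs0 : 0 < Real.sqrt σ := Real.sqrt_pos.2 hσ0
  have hss : Real.sqrt σ * Real.sqrt σ = σ := Real.mul_self_sqrt hσ0.le
  have htt : Real.sqrt t * Real.sqrt t = t := Real.mul_self_sqrt (by linarith)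
  have ht0 : 0 < Real.sqrt t := Real.sqrt_pos.2 (by linarith)
  have h3 : Real.sqrt σ * (t / σ) = t / Real.sqrt σ := by
    rw [eq_div_iff hs0.ne']
    calc Real.sqrt σ * (t / σ) * Real.sqrt σ = (Real.sqrt σ * Real.sqrt σ) * (t / σ) := by ring
      _ = σ * (t / σ) := by rw [hss]
      _ = t := by field_simp
  rw [h3, div_le_iff₀ hs0]
  have h4 : Real.sqrt t ≤ (1 + ε) * Real.sqrt σ := by
    rw [← Real.sqrt_sq (show (0 : ℝ) ≤ 1 + ε by linarith), ← Real.sqrt_mul (by positivity)]
    refine Real.sqrt_le_sqrt ?_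
    have h5 : ε * 1 ≤ ε * σ := mul_le_mul_of_nonneg_left hσ1 he0.le
    have h6 : 0 ≤ ε * ε * σ := by positivity
    nlinarith
  calc t = Real.sqrt t * Real.sqrt t := htt.symm
    _ ≤ Real.sqrt t * ((1 + ε) * Real.sqrt σ) := mul_le_mul_of_nonneg_left h4 ht0.le
    _ = (1 + ε) * Real.sqrt t * Real.sqrt σ := by ring

/-- `Near E L c`: the class `c H - ∑ L_j E_j`, of self-intersection zero, is obtained from the
classes `√(A B) H - ∑ m_j E_j`, where `m` are the sides of the squares in the Euclidean subdivision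
of the rectangle with sides `A` and `B`, `A ≥ 2 ^ 1000 B`, by scaling and by replacing a
coefficient `w` by the coefficients of a class `w H - ∑ L'_j E_j`; `E` is the product of the
numbers `1 + exp (-(A / B) ^ (1 / 10))`. -/
inductive Near : ℝ → List ℝ → ℝ → Prop
  | euclid (A B : ℕ) (L : List ℕ) : 0 < B → 2 ^ 1000 * B ≤ A → Mult A B L →
      Near (1 + Real.exp (-(((A : ℝ) / B) ^ (1 / 10 : ℝ)))) (L.map fun m : ℕ => (m : ℝ))
        (Real.sqrt (A * B))
  | scale (E a c : ℝ) (L : List ℝ) : 0 < a → Near E L c →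
      Near E (L.map fun t => a * t) (a * c)
  | glue (E E' c w : ℝ) (L₁ L₂ L' : List ℝ) : Near E (L₁ ++ [w] ++ L₂) c → Near E' L' w →
      Near (E * E') (L₁ ++ L' ++ L₂) c

theorem mult_pos {A B : ℕ} {L : List ℕ} (h : Mult A B L) : ∀ m ∈ L, 0 < m := by
  induction h with
  | left A => simp
  | right B => simp
  | big A B L hB _ _ ih =>
    intro m hm
    rcases List.mem_cons.1 hm with rfl | hm
    · exact hB
    · exact ih m hm
  | small A B L hA _ _ ih =>
    intro m hm
    rcases List.mem_cons.1 hm with rfl | hm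
    · exact hA
    · exact ih m hm

theorem sqrt_mul_eq {A B : ℕ} (hB : 0 < B) :
    Real.sqrt ((A : ℝ) * B) = B * Real.sqrt ((A : ℝ) / B) := by
  have hB' : (0 : ℝ) < B := by exact_mod_cast hB
  have h1 : ((A : ℝ) * B) = (B : ℝ) ^ 2 * ((A : ℝ) / B) := by
    field_simp
  rw [h1, Real.sqrt_mul (by positivity), Real.sqrt_sq hB'.le]

theorem nf_mono {K : Type} [Field K] {ι : Type} [Fintype ι] {t t' : ι → ℝ} {c : ℝ}
    (h : NB.Nf K t c) (ht : ∀ i, t' i ≤ t i) : NB.Nf K t' c := by
  intro w d hd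
  refine h w d (lt_of_lt_of_le hd ?_)
  exact Finset.sum_le_sum fun i _ => mul_le_mul_of_nonneg_right (ht i) (Nat.cast_nonneg _)

theorem nf_list_mono {L M N : List ℝ} {a c : ℝ} (ha : 1 ≤ a) (hL : ∀ t ∈ L, 0 < t)
    (hN : ∀ t ∈ N, 0 < t)
    (h : NB.Nf ℂ ((L.map fun t => a * t) ++ M ++ (N.map fun t => a * t)).get c) :
    NB.Nf ℂ (L ++ M ++ N).get c := by
  have hlen : ((L.map fun t => a * t) ++ M ++ (N.map fun t => a * t)).length =
      (L ++ M ++ N).length := by simp
  have h1 : NB.Nf ℂ (fun j : Fin (L ++ M ++ N).length =>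
      ((L.map fun t => a * t) ++ M ++ (N.map fun t => a * t)).get (Fin.cast hlen.symm j)) c := by
    have := h.equiv (finCongr hlen)
    exact this
  refine nf_mono h1 fun j => ?_
  have hj := j.2
  simp only [List.length_append] at hj
  simp only [List.get_eq_getElem, Fin.val_cast]
  rw [List.getElem_append, List.getElem_append]
  simp only [List.length_append, List.length_map]
  by_cases h2 : (j : ℕ) < L.length + M.length
  · rw [dif_pos h2, dif_pos h2, List.getElem_append, List.getElem_append]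
    by_cases h3 : (j : ℕ) < L.length
    · have h3' : (j : ℕ) < (L.map fun t => a * t).length := by simpa using h3
      rw [dif_pos h3, dif_pos h3', List.getElem_map]
      have h4 := hL _ (List.getElem_mem h3)
      nlinarith
    · have h3' : ¬ (j : ℕ) < (L.map fun t => a * t).length := by simpa using h3
      rw [dif_neg h3, dif_neg h3']
      simp only [List.length_map]
      exact le_rfl
  · rw [dif_neg h2, dif_neg h2, List.getElem_map]
    have h4 := hN _ (List.getElem_mem (show (j : ℕ) - (L.length + M.length) < N.length by omega))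
    nlinarith

theorem Near.props {E : ℝ} {L : List ℝ} {c : ℝ} (h : Near E L c) :
    0 < c ∧ 1 ≤ E ∧ (∀ t ∈ L, 0 < t) ∧ (L.map fun t => t ^ 2).sum = c ^ 2 ∧
      NB.Nf ℂ L.get (E * c) := by
  induction h with
  | euclid A B L hB hAB hL =>
    have hA : 0 < A := lt_of_lt_of_le (by positivity) hAB
    have hA' : (0 : ℝ) < A := by exact_mod_cast hA
    have hB' : (0 : ℝ) < B := by exact_mod_cast hB
    have ht : (0 : ℝ) < (A : ℝ) / B := by positivity
    have hbig : (2 : ℝ) ^ 1000 ≤ (A : ℝ) / B := by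
      rw [le_div_iff₀ hB']
      have h1 : ((2 ^ 1000 * B : ℕ) : ℝ) ≤ (A : ℝ) := Nat.cast_le.2 hAB
      rwa [Nat.cast_mul, Nat.cast_pow, Nat.cast_ofNat] at h1
    clear hAB
    obtain ⟨δ, σ, hδ, hσ, hβ⟩ := beta_exp hbig
    clear hbig
    refine ⟨Real.sqrt_pos.2 (by positivity), ?_, ?_, ?_, ?_⟩
    · have := Real.exp_pos (-(((A : ℝ) / B) ^ (1 / 10 : ℝ)))
      linarith
    · intro t ht'
      obtain ⟨m, hm, rfl⟩ := List.mem_map.1 ht'
      exact_mod_cast mult_pos hL m hm
    · rw [Real.sq_sqrt (by positivity), List.map_map]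
      have h1 := hL.sum_sq
      have h2 : (((L.map fun m => m ^ 2).sum : ℕ) : ℝ) = ((A * B : ℕ) : ℝ) := by rw [h1]
      rw [Nat.cast_list_sum, List.map_map] at h2
      push_cast at h2
      rw [← h2]
      congr 1
      refine List.map_congr_left fun m _ => ?_
      simp
    · refine nf_euclid hA hB (by omega) hσ ?_ hL
      rw [sqrt_mul_eq hB]
      calc (B : ℝ) * (Real.sqrt σ * max 1 (((A : ℝ) / B) / σ)) ≤
          B * ((1 + eps ((A : ℝ) / B)) * Real.sqrt ((A : ℝ) / B)) :=
            mul_le_mul_of_nonneg_left hβ hB'.le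
        _ = (1 + Real.exp (-(((A : ℝ) / B) ^ (1 / 10 : ℝ)))) *
            (B * Real.sqrt ((A : ℝ) / B)) := by
            unfold eps
            ring
  | scale E a c L ha _ ih =>
    obtain ⟨h1, hE, h2, h3, h4⟩ := ih
    refine ⟨mul_pos ha h1, hE, ?_, ?_, ?_⟩
    · intro t ht
      obtain ⟨u, hu, rfl⟩ := List.mem_map.1 ht
      exact mul_pos ha (h2 u hu)
    · rw [List.map_map, mul_pow, ← h3]
      have h5 : ((fun t : ℝ => t ^ 2) ∘ fun t => a * t) = fun t => a ^ 2 * t ^ 2 := by
        funext t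
        simp only [Function.comp_apply]
        ring
      rw [h5, List.sum_map_mul_left]
    · have := nf_list_scale ha h4
      rwa [show a * (E * c) = E * (a * c) by ring] at this
  | glue E E' c w L₁ L₂ L' _ _ ih ih' =>
    obtain ⟨h1, hE, h2, h3, h4⟩ := ih
    obtain ⟨h1', hE', h2', h3', h4'⟩ := ih'
    have hL₁ : ∀ t ∈ L₁, 0 < t := fun t ht => h2 t (by simp [ht])
    have hL₂ : ∀ t ∈ L₂, 0 < t := fun t ht => h2 t (by simp [ht])
    have hE0 : 0 < E' := by linarith
    refine ⟨h1, by nlinarith, ?_, ?_, ?_⟩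
    · intro t ht
      simp only [List.mem_append] at ht
      rcases ht with (ht | ht) | ht
      · exact hL₁ t ht
      · exact h2' t ht
      · exact hL₂ t ht
    · rw [← h3]
      simp only [List.map_append, List.sum_append, h3', List.map_cons, List.map_nil,
        List.sum_cons, List.sum_nil, add_zero]
    · have h5 := nf_list_scale hE0 h4
      rw [List.map_append, List.map_append, List.map_cons, List.map_nil] at h5
      have h6 := nf_list_glue (L' := L') (w := E' * w) (c := E' * (E * c))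
        (L₁ := L₁.map fun t => E' * t) (L₂ := L₂.map fun t => E' * t)
        (fun t ht => by
          obtain ⟨u, hu, rfl⟩ := List.mem_map.1 ht
          exact mul_pos hE0 (hL₁ u hu))
        (fun t ht => by
          obtain ⟨u, hu, rfl⟩ := List.mem_map.1 ht
          exact mul_pos hE0 (hL₂ u hu)) (mul_pos hE0 h1') h5 h4'
      rw [show E * E' * c = E' * (E * c) by ring]
      exact nf_list_mono hE' hL₁ hL₂ h6

end Pool.Agent.W609.Cone
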